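import Mathlib
import Pool.Agent.R870.RC.Defs

set_option autoImplicit false

/-! # Random divisors and monomial ideals: definitions -/

namespace Pool.Agent.R870.RC

open MvPolynomial

/-- the logarithmic height of a vector of coprime integers -/
noncomputable def hx {n : ℕ} (x : Fin (n + 1) → ℤ) : ℝ := Real.log (⨆ j, |(x j : ℝ)|)

/-- the local heights of the hypersurface `F = 0` of degree `d` at a vector `x` of coprime integers;
`none` stands for the archimedean place and `some p` for the prime `p` -/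
noncomputable def lam {n : ℕ} (F : MvPolynomial (Fin (n + 1)) ℤ) (d : ℕ) (x : Fin (n + 1) → ℤ) :
    Option ℕ → ℝ
  | none => Real.log ((∑ m ∈ F.support, |((F.coeff m : ℤ) : ℝ)|) * (⨆ j, |(x j : ℝ)|) ^ d /
      |((eval x F : ℤ) : ℝ)|)
  | some p => padicValInt p (eval x F) * Real.log p

/-- the local height of the ideal generated by the products `F^a = ∏ F_i^(a_i)`, `a ∈ E`, at a place
where the local heights of the `F_i` are `t_i` -/
noncomputable def lamI {s : ℕ} (E : Finset (Fin s → ℕ)) (t : Fin s → ℝ) : ℝ :=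
  ⨅ a : E, ∑ i, ((a : Fin s → ℕ) i : ℝ) * t i

/-- `F^b` belongs to the ideal `I^-` of the ideal `I` generated by the `F^a`, `a ∈ E` (Howald):
`b + (1, …, 1)` lies in the Newton polyhedron of `E` -/
def Mult {s : ℕ} (E : Finset (Fin s → ℕ)) (b : Fin s → ℕ) : Prop :=
  ∃ e ∈ convexHull ℝ {e : Fin s → ℝ | ∃ a ∈ E, ∀ i, e i = (a i : ℝ)}, ∀ i, e i ≤ (b i : ℝ) + 1

/-- the local height of the ideal `I^-` -/
noncomputable def lamIm {s : ℕ} (E : Finset (Fin s → ℕ)) (t : Fin s → ℝ) : ℝ :=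
  ⨅ b : {b : Fin s → ℕ // Mult E b}, ∑ i, ((b : Fin s → ℕ) i : ℝ) * t i

/-- the systems for which the inequality of the conjecture, with the constant
`(s - κ) log H + C₀`, fails for some ideal generated by monomials in the `F_i` and some point -/
def BadI (n : ℕ) {s : ℕ} (d : Fin s → ℕ) (S : Finset ℕ) (ε κ C₀ : ℝ) (H : ℕ) :
    Set (Fin s → MvPolynomial (Fin (n + 1)) ℤ) :=
  {F | F ∈ Systems n d H ∧ ∃ x : Fin (n + 1) → ℤ, (∃ a : Fin (n + 1) → ℤ, ∑ j, a j * x j = 1) ∧
    (∀ j, |(x j : ℝ)| ^ (∑ i, d i) ≤ (H : ℝ) ^ (s + (∑ i, d i : ℕ) - κ)) ∧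
    (∀ i, eval x (F i) ≠ 0) ∧ ∃ E : Finset (Fin s → ℕ), E.Nonempty ∧
    ε * hx x + (s - κ) * Real.log H + C₀ <
      -(n + 1) * hx x +
        ∑ v ∈ insert none (S.image some), lamI E (fun i => lam (F i) (d i) x v) -
        ∑ v ∈ insert none (S.image some), lamIm E (fun i => lam (F i) (d i) x v)}

end Pool.Agent.R870.RC
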