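import Mathlib
import Pool.Agent.R870.RI.Defs
import Pool.Agent.R870.RV.Final

set_option autoImplicit false

/-! # Random divisors and monomial ideals -/

namespace Pool.Agent.R870.RC

open MvPolynomial Finset

variable {n : ℕ}

/-- the local inequality -/
theorem lamI_le {s : ℕ} (E : Finset (Fin s → ℕ)) (hE : E.Nonempty) (t : Fin s → ℝ)
    (ht : ∀ i, 0 ≤ t i) : lamI E t - lamIm E t ≤ ∑ i, t i := by
  have hbdd : BddBelow (Set.range fun a : E => ∑ i, ((a : Fin s → ℕ) i : ℝ) * t i) :=
    ⟨0, by
      rintro _ ⟨a, rfl⟩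
      exact sum_nonneg fun i _ => mul_nonneg (Nat.cast_nonneg _) (ht i)⟩
  have h1 : ∀ a ∈ E, lamI E t ≤ ∑ i, (a i : ℝ) * t i := fun a ha =>
    ciInf_le hbdd (⟨a, ha⟩ : E)
  have hne : Nonempty {b : Fin s → ℕ // Mult E b} := by
    obtain ⟨a, ha⟩ := hE
    refine ⟨⟨a, fun i => (a i : ℝ), subset_convexHull ℝ _ ⟨a, ha, fun i => rfl⟩, fun i => ?_⟩⟩
    linarith
  have h2 : lamI E t - ∑ i, t i ≤ lamIm E t := by
    unfold lamIm
    apply le_ciInf
    rintro ⟨b, e, he, hb⟩
    have h3 : convexHull ℝ {e : Fin s → ℝ | ∃ a ∈ E, ∀ i, e i = (a i : ℝ)} ⊆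
        {e : Fin s → ℝ | lamI E t ≤ ∑ i, e i * t i} := by
      apply convexHull_min
      · rintro e ⟨a, ha, hea⟩
        rw [Set.mem_ofPred_eq, sum_congr rfl fun i _ => by rw [hea i]]
        exact h1 a ha
      · intro u hu v hv α β hα hβ hαβ
        rw [Set.mem_ofPred_eq] at hu hv ⊢
        have h4 : ∑ i, (α • u + β • v) i * t i = α * ∑ i, u i * t i + β * ∑ i, v i * t i := by
          rw [mul_sum, mul_sum, ← sum_add_distrib]
          refine sum_congr rfl fun i _ => ?_
          simp only [Pi.add_apply, Pi.smul_apply, smul_eq_mul]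
          ring
        rw [h4]
        have h5 := mul_le_mul_of_nonneg_left hu hα
        have h6 := mul_le_mul_of_nonneg_left hv hβ
        have h7 : α * lamI E t + β * lamI E t = lamI E t := by rw [← add_mul, hαβ, one_mul]
        linarith
    have h4 := h3 he
    rw [Set.mem_ofPred_eq] at h4
    have h5 : ∑ i, e i * t i ≤ ∑ i, (b i : ℝ) * t i + ∑ i, t i := by
      rw [← sum_add_distrib]
      apply sum_le_sum
      intro i _
      have := mul_le_mul_of_nonneg_right (hb i) (ht i)
      linarith
    simp only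
    linarith
  linarith

theorem sup_abs_nonneg (x : Fin (n + 1) → ℤ) : 0 ≤ ⨆ j, |(x j : ℝ)| :=
  le_trans (abs_nonneg _) (le_ciSup (f := fun j => |(x j : ℝ)|) (Set.finite_range _).bddAbove 0)

theorem abs_eval_le' {d H : ℕ} {F : MvPolynomial (Fin (n + 1)) ℤ} (hF : F ∈ Forms n d H)
    (x : Fin (n + 1) → ℤ) : |((eval x F : ℤ) : ℝ)| ≤
      (∑ m ∈ F.support, |((F.coeff m : ℤ) : ℝ)|) * (⨆ j, |(x j : ℝ)|) ^ d := by
  rw [eval_eq]
  push_cast
  refine (abs_sum_le_sum_abs _ _).trans ?_
  rw [sum_mul]
  apply sum_le_sum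
  intro m hm
  rw [abs_mul]
  apply mul_le_mul_of_nonneg_left _ (abs_nonneg _)
  rw [abs_prod]
  have h1 : ∏ j ∈ m.support, |(x j : ℝ) ^ m j| ≤ ∏ j ∈ m.support, (⨆ j, |(x j : ℝ)|) ^ m j := by
    apply prod_le_prod
    · intro j _
      exact abs_nonneg _
    · intro j _
      rw [abs_pow]
      exact pow_le_pow_left₀ (abs_nonneg _)
        (le_ciSup (f := fun j => |(x j : ℝ)|) (Set.finite_range _).bddAbove j) _
  refine h1.trans (le_of_eq ?_)
  rw [prod_pow_eq_pow_sum]
  congr 1
  have h2 := hF.1 (mem_support_iff.1 hm)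
  have h3 : m.degree = d := by
    rw [Finsupp.degree_eq_weight_one]
    exact h2
  exact h3

/-- the sum of the local heights is bounded by the truncated counting function -/
theorem sum_lam_le {d H : ℕ} (hH : 1 ≤ H) {F : MvPolynomial (Fin (n + 1)) ℤ}
    (hF : F ∈ Forms n d H) (x : Fin (n + 1) → ℤ) (hx0 : 1 ≤ ⨆ j, |(x j : ℝ)|)
    (hne : eval x F ≠ 0) (S : Finset ℕ) (hS : ∀ p ∈ S, p.Prime) :
    (∀ v ∈ insert none (S.image some), 0 ≤ lam F d x v) ∧
    ∑ v ∈ insert none (S.image some), lam F d x v ≤
      d * hx x + Real.log H + Real.log (Mo n d).card - N1 S (eval x F) := by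
  classical
  have hev : 0 < |((eval x F : ℤ) : ℝ)| := abs_pos.2 (by exact_mod_cast hne)
  have habs := abs_eval_le' hF x
  set L : ℝ := ∑ m ∈ F.support, |((F.coeff m : ℤ) : ℝ)| with hL
  set X : ℝ := ⨆ j, |(x j : ℝ)| with hX
  have hX0 : 0 < X := by linarith
  have hHr : (1 : ℝ) ≤ H := by exact_mod_cast hH
  have hL0 : 0 < L := by
    by_contra h
    have h1 : L * X ^ d ≤ 0 := mul_nonpos_of_nonpos_of_nonneg (not_lt.1 h) (by positivity)
    linarith
  have hLle : L ≤ (Mo n d).card * H := by
    have hsub : F.support ⊆ Mo n d := by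
      intro m hm
      rw [mem_Mo]
      have h2 := hF.1 (mem_support_iff.1 hm)
      rw [Finsupp.degree_eq_weight_one]
      exact h2
    calc L ≤ ∑ _m ∈ F.support, (H : ℝ) := by
          apply sum_le_sum
          intro m _
          exact_mod_cast hF.2 m
      _ = F.support.card * H := by rw [sum_const, nsmul_eq_mul]
      _ ≤ _ := by
          apply mul_le_mul_of_nonneg_right _ (by linarith)
          exact_mod_cast card_le_card hsub
  refine ⟨?_, ?_⟩
  · intro v hv
    rw [mem_insert, mem_image] at hv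
    rcases hv with rfl | ⟨p, hp, rfl⟩
    · unfold lam
      apply Real.log_nonneg
      rw [le_div_iff₀ hev, one_mul]
      exact habs
    · unfold lam
      exact mul_nonneg (Nat.cast_nonneg _) (Real.log_nonneg (by
        exact_mod_cast (hS p hp).one_lt.le))
  · rw [sum_insert (by simp)]
    rw [sum_image (by intro a _ b _ h; exact Option.some_injective _ h)]
    have h1 : lam F d x none = Real.log L + d * hx x - Real.log |((eval x F : ℤ) : ℝ)| := by
      unfold lam hx
      rw [Real.log_div (mul_pos hL0 (by positivity)).ne' hev.ne', Real.log_mul hL0.ne'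
        (by positivity), Real.log_pow]
    have h2 : ∑ p ∈ S, lam F d x (some p) + N1 S (eval x F) ≤
        Real.log |((eval x F : ℤ) : ℝ)| := by
      have h3 : |((eval x F : ℤ) : ℝ)| = ((eval x F).natAbs : ℝ) := by
        rw [Nat.cast_natAbs, Int.cast_abs]
      rw [h3, Real.log_nat_eq_sum_factorization]
      set t := (eval x F).natAbs with ht
      have ht0 : t ≠ 0 := Int.natAbs_ne_zero.2 hne
      have h4 : t.factorization.sum (fun p k => (k : ℝ) * Real.log p) =
          ∑ p ∈ t.primeFactors ∩ S, (t.factorization p : ℝ) * Real.log p +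
          ∑ p ∈ t.primeFactors \ S, (t.factorization p : ℝ) * Real.log p := by
        rw [Finsupp.sum, Nat.support_factorization, sum_inter_add_sum_sdiff]
      rw [h4]
      apply add_le_add
      · have h5 : ∑ p ∈ S, lam F d x (some p) =
            ∑ p ∈ t.primeFactors ∩ S, (t.factorization p : ℝ) * Real.log p := by
          rw [inter_comm]
          have h6 : ∀ p ∈ S, lam F d x (some p) = (t.factorization p : ℝ) * Real.log p := by
            intro p hp
            unfold lam padicValInt
            rw [Nat.factorization_def _ (hS p hp)]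
          rw [sum_congr rfl h6]
          symm
          apply sum_subset inter_subset_left
          intro p hp hp2
          have h7 : p ∉ t.primeFactors := fun h => hp2 (mem_inter.2 ⟨hp, h⟩)
          have h8 : t.factorization p = 0 := by
            rw [← Finsupp.notMem_support_iff, Nat.support_factorization]
            exact h7
          rw [h8, Nat.cast_zero, zero_mul]
        rw [h5]
      · unfold N1
        apply sum_le_sum
        intro p hp
        have hp1 := (mem_sdiff.1 hp).1
        have h5 : 1 ≤ t.factorization p := by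
          rw [← Nat.support_factorization, Finsupp.mem_support_iff] at hp1
          exact Nat.one_le_iff_ne_zero.2 hp1
        have h6 : 0 ≤ Real.log p := Real.log_natCast_nonneg p
        have h7 : (1 : ℝ) ≤ t.factorization p := by exact_mod_cast h5
        nlinarith
    have h3 : Real.log L ≤ Real.log (Mo n d).card + Real.log H := by
      have hM : (0 : ℝ) < (Mo n d).card := by
        by_contra h
        have : ((Mo n d).card : ℝ) * H ≤ 0 :=
          mul_nonpos_of_nonpos_of_nonneg (not_lt.1 h) (by linarith)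
        linarith
      rw [← Real.log_mul hM.ne' (by linarith)]
      exact Real.log_le_log hL0 hLle
    rw [h1]
    linarith

/-- **Random divisors and monomial ideals.** -/
theorem random_ideals (n s : ℕ) (d : Fin s → ℕ) (hD : 1 ≤ ∑ i, d i) (S : Finset ℕ)
    (hS : ∀ p ∈ S, p.Prime) (ε κ : ℝ) (hε : 0 < ε) (hκ : κ < s) :
    ∃ δ C C₀ : ℝ, 0 < δ ∧ ∀ H : ℕ, 1 ≤ H →
      ((BadI n d S ε κ C₀ H).ncard : ℝ) ≤ C * (H : ℝ) ^ (-δ) * ((Systems n d H).ncard : ℝ) := by
  classical
  obtain ⟨δ, C, hδ, h⟩ := random_vojta n s d hD S ε κ hε hκ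
  refine ⟨δ, C, ∑ i, Real.log (Mo n (d i)).card, hδ, fun H hH => ?_⟩
  refine le_trans ?_ (h H hH)
  have hfin : (BadV n d S ε κ H).Finite := (fin_systems _ H).subset fun F hF => hF.1
  have hsub : BadI n d S ε κ (∑ i, Real.log (Mo n (d i)).card) H ⊆ BadV n d S ε κ H := by
    rintro F ⟨hF, x, ⟨a, ha⟩, hxb, hne, E, hE, hlt⟩
    refine ⟨hF, x, ⟨a, ha⟩, hxb, hne, ?_⟩
    have hx0 : 1 ≤ ⨆ j, |(x j : ℝ)| := by
      have h1 : ∃ j, x j ≠ 0 := by
        by_contra hcon
        push Not at hcon
        rw [sum_congr rfl fun j _ => by rw [hcon j, mul_zero], sum_const_zero] at ha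
        exact zero_ne_one ha
      obtain ⟨j, hj⟩ := h1
      have h2 : (1 : ℝ) ≤ |(x j : ℝ)| := by exact_mod_cast Int.one_le_abs hj
      exact h2.trans (le_ciSup (f := fun j => |(x j : ℝ)|) (Set.finite_range _).bddAbove j)
    have h1 : ∑ v ∈ insert none (S.image some), lamI E (fun i => lam (F i) (d i) x v) -
        ∑ v ∈ insert none (S.image some), lamIm E (fun i => lam (F i) (d i) x v) ≤
        ∑ i, (d i * hx x + Real.log H + Real.log (Mo n (d i)).card - N1 S (eval x (F i))) := by
      rw [← sum_sub_distrib]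
      calc _ ≤ ∑ v ∈ insert none (S.image some), ∑ i, lam (F i) (d i) x v := by
            apply sum_le_sum
            intro v hv
            exact lamI_le E hE _ fun i => (sum_lam_le hH (hF i) x hx0 (hne i) S hS).1 v hv
        _ = ∑ i, ∑ v ∈ insert none (S.image some), lam (F i) (d i) x v := sum_comm
        _ ≤ _ := sum_le_sum fun i _ => (sum_lam_le hH (hF i) x hx0 (hne i) S hS).2
    rw [sum_sub_distrib, sum_add_distrib, sum_add_distrib, ← sum_mul, sum_const, card_univ,
      Fintype.card_fin, nsmul_eq_mul] at h1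
    have h2 : hgt x = hx x := rfl
    rw [h2]
    push_cast
    have h3 : (((∑ i, (d i : ℝ))) - n - 1 - ε) * hx x = (∑ i, (d i : ℝ)) * hx x -
        (n + 1) * hx x - ε * hx x := by ring
    rw [h3]
    have h4 : ((s : ℝ) - κ) * Real.log H = s * Real.log H - κ * Real.log H := by ring
    rw [h4] at hlt
    linarith
  exact_mod_cast Set.ncard_le_ncard hsub hfin

end Pool.Agent.R870.RC
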